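import Pool.Agent.Helper40.PR.Defs

/-!
Piece TK3: the discriminant lemma (MP_339e9c_an).
-/

namespace PR

namespace TK3

lemma le_zero_of_forall {x B C : ℝ} (hB : 0 ≤ B) (h : ∀ R : ℝ, 0 < R → x * R ^ 2 ≤ B + C * R) :
    x ≤ 0 := by
  by_contra hx
  push Not at hx
  set R : ℝ := (B + |C| + 1) / x + 1 with hR
  have h1 : 0 < (B + |C| + 1) / x := by positivity
  have hRx : x * R = B + |C| + 1 + x := by
    rw [hR]; field_simp
  have hR1 : 1 ≤ R := by linarith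
  have h2 := h R (by linarith)
  have h3 : x * R ^ 2 = (B + |C| + 1 + x) * R := by rw [← hRx]; ring
  rw [h3] at h2
  have h4 : C ≤ |C| := le_abs_self C
  nlinarith [abs_nonneg C]

lemma expand (d0 d1 d2 k0 z : ℂ) : d0 + d1 * z + d2 * z ^ 2 =
    (d0 + d1 * k0 + d2 * k0 ^ 2) + (d1 + 2 * d2 * k0) * (z - k0) + d2 * (z - k0) ^ 2 := by
  ring

lemma key {k : ℂ → ℂ} (hk : ∀ s s', ‖k s - k s'‖ = ‖s - s'‖) {a b d0 d1 d2 : ℂ} (hb : b ≠ 0)
    (hd : ∀ s, ‖d0 + d1 * k s + d2 * k s ^ 2‖ ≤ ‖a + s * b‖ ^ 2) :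
    d0 + d1 * k (-a / b) + d2 * k (-a / b) ^ 2 = 0 ∧ d1 + 2 * d2 * k (-a / b) = 0 := by
  have h0 : d0 + d1 * k (-a / b) + d2 * k (-a / b) ^ 2 = 0 := by
    have h := hd (-a / b)
    have e : a + -a / b * b = 0 := by field_simp; ring
    rw [e, norm_zero] at h
    have h' : ‖d0 + d1 * k (-a / b) + d2 * k (-a / b) ^ 2‖ ≤ 0 := by simpa using h
    exact norm_le_zero_iff.1 h'
  refine ⟨h0, ?_⟩
  set k0 := k (-a / b) with hk0
  set c := d1 + 2 * d2 * k0 with hc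
  have hM : ∀ ε : ℝ, 0 < ε → ‖c‖ ≤ (‖b‖ ^ 2 + ‖d2‖) * ε := by
    intro ε hε
    have h1 := hd (-a / b + ε)
    have e : a + (-a / b + ε) * b = ε * b := by field_simp; ring
    rw [e, norm_mul, Complex.norm_real, Real.norm_of_nonneg hε.le, expand d0 d1 d2 k0, h0,
      zero_add] at h1
    have hw : ‖k (-a / b + ε) - k0‖ = ε := by
      rw [hk0, hk, add_sub_cancel_left, Complex.norm_real, Real.norm_of_nonneg hε.le]
    have h2 : ‖c * (k (-a / b + ε) - k0)‖ ≤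
        ‖c * (k (-a / b + ε) - k0) + d2 * (k (-a / b + ε) - k0) ^ 2‖ +
          ‖d2 * (k (-a / b + ε) - k0) ^ 2‖ := by
      have := norm_sub_le (c * (k (-a / b + ε) - k0) + d2 * (k (-a / b + ε) - k0) ^ 2)
        (d2 * (k (-a / b + ε) - k0) ^ 2)
      rwa [add_sub_cancel_right] at this
    rw [norm_mul, hw, norm_mul, norm_pow, hw] at h2
    have h3 : ‖c‖ * ε ≤ (‖b‖ ^ 2 + ‖d2‖) * ε * ε := by nlinarith
    exact le_of_mul_le_mul_right h3 hε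
  have hle : ‖c‖ ≤ 0 := by
    by_contra hne
    push Not at hne
    have hpos : 0 < ‖b‖ ^ 2 + ‖d2‖ := by
      have : 0 < ‖b‖ := norm_pos_iff.2 hb
      positivity
    have h1 := hM (‖c‖ / (2 * (‖b‖ ^ 2 + ‖d2‖))) (by positivity)
    have h2 : (‖b‖ ^ 2 + ‖d2‖) * (‖c‖ / (2 * (‖b‖ ^ 2 + ‖d2‖))) = ‖c‖ / 2 := by
      field_simp
    rw [h2] at h1
    linarith
  exact norm_le_zero_iff.1 hle

lemma const {k : ℂ → ℂ} (hk : ∀ s s', ‖k s - k s'‖ = ‖s - s'‖) {d0 d1 d2 : ℂ} {A : ℝ}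
    (hd : ∀ s, ‖d0 + d1 * k s + d2 * k s ^ 2‖ ≤ A) : d1 = 0 ∧ d2 = 0 := by
  have hA : 0 ≤ A := (norm_nonneg _).trans (hd 0)
  set k0 := k 0 with hk0
  have hw : ∀ R : ℝ, 0 < R → ‖k (R : ℂ) - k0‖ = R := by
    intro R hR
    rw [hk0, hk, sub_zero, Complex.norm_real, Real.norm_of_nonneg hR.le]
  have h2 : ‖d2‖ ≤ 0 := by
    apply le_zero_of_forall (B := 2 * A) (C := ‖d1 + 2 * d2 * k0‖) (by linarith)
    intro R hR
    have h1 := hd R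
    have h1' := hd 0
    rw [← hk0] at h1'
    have e : d2 * (k R - k0) ^ 2 = (d0 + d1 * k R + d2 * k R ^ 2) -
        ((d0 + d1 * k0 + d2 * k0 ^ 2) + (d1 + 2 * d2 * k0) * (k R - k0)) := by ring
    have h3 : ‖d2 * (k R - k0) ^ 2‖ ≤ ‖d0 + d1 * k R + d2 * k R ^ 2‖ +
        (‖d0 + d1 * k0 + d2 * k0 ^ 2‖ + ‖(d1 + 2 * d2 * k0) * (k R - k0)‖) := by
      rw [e]
      refine (norm_sub_le _ _).trans ?_
      gcongr
      exact norm_add_le _ _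
    rw [norm_mul, norm_pow, hw R hR, norm_mul (d1 + 2 * d2 * k0), hw R hR] at h3
    linarith
  have hd2 : d2 = 0 := norm_le_zero_iff.1 h2
  refine ⟨?_, hd2⟩
  have h1 : ‖d1‖ ≤ 0 := by
    by_contra hne
    push Not at hne
    have hR : 0 < 2 * A / ‖d1‖ + 1 := by positivity
    have h1 := hd ((2 * A / ‖d1‖ + 1 : ℝ) : ℂ)
    have h1' := hd 0
    rw [← hk0] at h1'
    rw [hd2] at h1 h1'
    have e : d1 * (k ((2 * A / ‖d1‖ + 1 : ℝ) : ℂ) - k0) =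
        (d0 + d1 * k ((2 * A / ‖d1‖ + 1 : ℝ) : ℂ) + 0 * k ((2 * A / ‖d1‖ + 1 : ℝ) : ℂ) ^ 2) -
        (d0 + d1 * k0 + 0 * k0 ^ 2) := by ring
    have h3 : ‖d1 * (k ((2 * A / ‖d1‖ + 1 : ℝ) : ℂ) - k0)‖ ≤ A + A := by
      rw [e]
      exact (norm_sub_le _ _).trans (add_le_add h1 h1')
    rw [norm_mul, hw _ hR] at h3
    have h4 : ‖d1‖ * (2 * A / ‖d1‖ + 1) = 2 * A + ‖d1‖ := by field_simp
    rw [h4] at h3
    linarith
  exact norm_le_zero_iff.1 h1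

lemma const_lin {k : ℂ → ℂ} (hk : ∀ s s', ‖k s - k s'‖ = ‖s - s'‖) {t0 t1 : ℂ} {A : ℝ}
    (hd : ∀ s, ‖t0 + t1 * k s‖ ≤ A) : t1 = 0 :=
  (const hk (d0 := t0) (d1 := t1) (d2 := 0) (A := A) (fun s => by simpa using hd s)).1

end TK3

theorem quad_disc {k : ℂ → ℂ} (hk : ∀ s s', ‖k s - k s'‖ = ‖s - s'‖) {a b d0 d1 d2 : ℂ}
    (hd : ∀ s, ‖d0 + d1 * k s + d2 * k s ^ 2‖ ≤ ‖a + s * b‖ ^ 2) :
    d1 ^ 2 = 4 * d0 * d2 := by
  by_cases hb : b = 0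
  · obtain ⟨h1, h2⟩ := TK3.const hk (d0 := d0) (d1 := d1) (d2 := d2) (A := ‖a‖ ^ 2)
      (fun s => by simpa [hb] using hd s)
    rw [h1, h2]; ring
  · obtain ⟨h0, h1⟩ := TK3.key hk hb hd
    set k0 := k (-a / b)
    have e1 : d1 = -(2 * d2 * k0) := by linear_combination h1
    have e0 : d0 = d2 * k0 ^ 2 := by
      rw [e1] at h0; linear_combination h0
    rw [e1, e0]; ring

theorem quad_lin {k : ℂ → ℂ} (hk : ∀ s s', ‖k s - k s'‖ = ‖s - s'‖) {a b d0 d1 d2 t0 t1 : ℂ}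
    (hd : ∀ s, ‖d0 + d1 * k s + d2 * k s ^ 2‖ ≤ ‖a + s * b‖ ^ 2)
    (ht : ∀ s, ‖t0 + t1 * k s‖ ≤ 2 * ‖a + s * b‖) :
    t1 * d1 = 2 * t0 * d2 ∧ t0 * d1 = 2 * t1 * d0 := by
  by_cases hb : b = 0
  · obtain ⟨h1, h2⟩ := TK3.const hk (d0 := d0) (d1 := d1) (d2 := d2) (A := ‖a‖ ^ 2)
      (fun s => by simpa [hb] using hd s)
    have h3 : t1 = 0 := TK3.const_lin hk (t0 := t0) (A := 2 * ‖a‖)
      (fun s => by simpa [hb] using ht s)
    rw [h1, h2, h3]; constructor <;> ring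
  · obtain ⟨h0, h1⟩ := TK3.key hk hb hd
    have h2 := ht (-a / b)
    have e : a + -a / b * b = 0 := by field_simp; ring
    rw [e, norm_zero, mul_zero] at h2
    have h3 := norm_le_zero_iff.1 h2
    set k0 := k (-a / b)
    have e1 : d1 = -(2 * d2 * k0) := by linear_combination h1
    have e0 : d0 = d2 * k0 ^ 2 := by
      rw [e1] at h0; linear_combination h0
    have e2 : t0 = -(t1 * k0) := by linear_combination h3
    rw [e1, e0, e2]; constructor <;> ring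

end PR
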