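import Pool.Agent.Helper44.PR.E6
import Pool.Agent.Helper33.PR.E5

/-!
# Images of `i P` and Wigner's condition for preservers of the skew Lie product
-/

namespace PR

open ContinuousLinearMap InnerProductSpace Complex

section e

variable {H : Type*} [NormedAddCommGroup H] [InnerProductSpace ℂ H] [CompleteSpace H]
variable {K : Type*} [NormedAddCommGroup K] [InnerProductSpace ℂ K] [CompleteSpace K]

/-- E6. -/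
theorem e_iP {φ : (H →L[ℂ] H) → (K →L[ℂ] K)} (hφ : PresE φ) (hH : Dim2 H) {π : H → K}
    (h1 : ∀ x, ‖x‖ = 1 → ‖π x‖ = 1 ∧ ∃ a : ℝ, a ≠ 0 ∧ φ (po x x) = (a : ℂ) • po (π x) (π x))
    (h2 : ∀ u : K, ‖u‖ = 1 → ∃ x, ‖x‖ = 1 ∧ ∃ θ : ℂ, ‖θ‖ = 1 ∧ u = θ • π x)
    (h3 : ∀ x y, ‖x‖ = 1 → ‖y‖ = 1 → (inner ℂ x y = (0 : ℂ) ↔ inner ℂ (π x) (π y) = (0 : ℂ))) :
    (∀ y, ‖y‖ = 1 → φ (po y y) = po (π y) (π y) ∨ φ (po y y) = -po (π y) (π y)) ∧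
    (∀ y, ‖y‖ = 1 → φ (I • po y y) = I • po (π y) (π y) ∨ φ (I • po y y) = -(I • po (π y) (π y))) ∧
    (∀ x y, ‖x‖ = 1 → ‖y‖ = 1 → ‖inner ℂ (π x) (π y)‖ = ‖inner ℂ x y‖) :=
  e_iP_of_norm hφ hH (e_norm hφ hH).1 h1 h2 h3

end e

end PR
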