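import Pool.Agent.Helper40.PR.Defs2
import Pool.Agent.Helper55.PR.TK4B
import Pool.Agent.Helper26.PR.TK7
import Pool.Agent.Helper8.PR.CD1
import Pool.Agent.Helper26.PR.CD2
import Pool.Agent.Helper19.PR.CD3
import Pool.Agent.Helper54.PR.CD5
import Pool.Agent.Helper41.PR.RKL

/-!
# Recognition of linear pairs for the products `TS + ST`, `TS - ST`
-/

namespace PR

open ContinuousLinearMap

section cd

variable {X : Type*} [NormedAddCommGroup X] [NormedSpace ℂ X] [CompleteSpace X]
variable {σ : ℂ}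

/-- a scalar perturbation of a multiple of a quasinilpotent operator is quasinilpotent only if the
scalar vanishes -/
theorem scalar_eq_zero_of_sr [Nontrivial X] {A B : X →L[ℂ] X} {c γ : ℂ}
    (hA : sr A = 0) (hB : sr B = 0) (h : A = c • B + γ • (1 : X →L[ℂ] X)) : γ = 0 := by
  obtain ⟨l, hl⟩ := spectrum.nonempty (c • B)
  have h1 : ‖l‖ ≤ sr (c • B) := norm_le_sr_of_mem hl
  rw [sr_smul, hB, mul_zero] at h1
  have hl0 : l = 0 := norm_le_zero_iff.mp h1
  subst hl0
  have h2 : γ ∈ spectrum ℂ A := by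
    rw [spectrum.mem_iff] at hl ⊢
    have h3 : algebraMap ℂ (X →L[ℂ] X) γ - A = algebraMap ℂ (X →L[ℂ] X) 0 - c • B := by
      rw [h, Algebra.algebraMap_eq_smul_one γ, map_zero]
      abel
    rw [h3]
    exact hl
  have h5 := norm_le_sr_of_mem h2
  rw [hA] at h5
  exact norm_le_zero_iff.mp h5

/-- an operator which is a multiple of `B` up to a scalar passes no test which `B` does not pass -/
theorem no_parallel (hσ : σ = 1 ∨ σ = -1) [Nontrivial X] {A B : X →L[ℂ] X}
    (h0 : σ = 1 → sr A = 0 ∧ sr B = 0)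
    (h : ∃ S, sr (bra σ B S) = 0 ∧ sr (bra σ A S) ≠ 0) {c γ : ℂ}
    (hAB : A = c • B + γ • (1 : X →L[ℂ] X)) : False := by
  obtain ⟨S, h1, h2⟩ := h
  have h3 : bra σ A S = c • bra σ B S := by
    rcases hσ with rfl | rfl
    · have h4 := scalar_eq_zero_of_sr (h0 rfl).1 (h0 rfl).2 hAB
      subst h4
      rw [hAB]
      simp [bra, smul_add]
    · rw [hAB]
      simp only [bra, smul_add, add_mul, mul_add, smul_mul_assoc, mul_smul_comm, one_mul, mul_one]
      module
  apply h2
  rw [h3, sr_smul, h1, mul_zero]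

/-- CD7. recognition theorem for the products `TS + ST`, `TS - ST`. -/
theorem rec_cd (hσ : σ = 1 ∨ σ = -1) (hX : Dim3 X) {A B : X →L[ℂ] X} (h : LPcd σ A B) :
    ∃ (x y : X) (f g : X →L[ℂ] ℂ) (α β : ℂ), x ≠ 0 ∧ y ≠ 0 ∧ f ≠ 0 ∧ g ≠ 0 ∧ f x = 0 ∧ g y = 0 ∧
      A = rk x f + α • (1 : X →L[ℂ] X) ∧ B = rk y g + β • (1 : X →L[ℂ] X) ∧
      (σ = 1 → α = 0 ∧ β = 0) ∧
      (((∃ c : ℂ, y = c • x) ∧ LinearIndependent ℂ ![f, g]) ∨
        (LinearIndependent ℂ ![x, y] ∧ (∃ c : ℂ, g = c • f))) := by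
  obtain ⟨C, hC1, hC2, hC3, hC4⟩ := h
  obtain ⟨v, hv⟩ := id hX
  have : Nontrivial X := ⟨⟨v 0, 0, hv.ne_zero 0⟩⟩
  have hd2 : ∃ v w : X, LinearIndependent ℂ ![v, w] := by
    refine ⟨v 0, v 1, ?_⟩
    have h1 := hv.comp (![0, 1] : Fin 2 → Fin 3) (by decide)
    convert h1 using 1
    ext i; fin_cases i <;> rfl
  have hfam : ∀ S, ∃ a b : ℂ, ∀ s, sr (bra σ (C s) S) = ‖a + s * b‖ := by
    intro S
    obtain ⟨a, b, -, -, h3⟩ := hC1 S
    exact ⟨a, b, h3⟩
  have hflag : ∀ (y : X) (g : X →L[ℂ] ℂ), g y = 0 →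
      PhaseFam (g (A y)) (g (B y)) (fun s => g (C s y)) := by
    intro y g hg
    obtain ⟨a, b, h1, h2, h3⟩ := hC1 (rk y g)
    refine ⟨a, b, ?_, ?_, ?_⟩
    · rw [← h1, sr_bra_flag hσ A hg]
    · rw [← h2, sr_bra_flag hσ B hg]
    · intro s
      have h4 : sr (bra σ (C s) (rk y g)) = ‖a + s * b‖ := h3 s
      rw [sr_bra_flag hσ (C s) hg] at h4
      exact h4
  have hN1 : ∀ c γ : ℂ, A ≠ c • B + γ • (1 : X →L[ℂ] X) := fun c γ hAB =>
    no_parallel hσ (fun h1 => ⟨(hC4 h1).1, (hC4 h1).2.1⟩) hC3 hAB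
  have hN2 : ∀ c γ : ℂ, B ≠ c • A + γ • (1 : X →L[ℂ] X) := fun c γ hAB =>
    no_parallel hσ (fun h1 => ⟨(hC4 h1).2.1, (hC4 h1).1⟩) hC2 hAB
  by_cases h0 : ∃ y, LinearIndependent ℂ ![y, A y, B y]
  · -- the generic case
    obtain ⟨k, hk, hCk⟩ := cd_claim hflag h0
    have hid1 : Id1 A B := cd_id1 hσ hfam hk hCk
    obtain ⟨α, β, A0, B0, hA, hB, hA0, hB0, hAB0⟩ := struct_of_id1 hid1 h0
    have hαβ : σ = 1 → α = 0 ∧ β = 0 := by
      intro h1
      obtain ⟨h2, h3, -⟩ := hC4 h1
      constructor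
      · have h4 := sr_scalar_add_sq_zero α hA0
        rw [add_comm, ← hA, h2] at h4
        exact norm_eq_zero.mp h4.symm
      · have h4 := sr_scalar_add_sq_zero β hB0
        rw [add_comm, ← hB, h3] at h4
        exact norm_eq_zero.mp h4.symm
    have hC' : ∀ s, ∃ p γ : ℂ, ‖p‖ = 1 ∧ C s = p • (A0 + k s • B0) + γ • (1 : X →L[ℂ] X) ∧
        (σ = 1 → γ = 0) := by
      intro s
      obtain ⟨p, γ, hp, hs⟩ := hCk s
      have hs' : C s = p • (A0 + k s • B0) + (p * α + p * k s * β + γ) • (1 : X →L[ℂ] X) := by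
        rw [hs, hA, hB]
        module
      refine ⟨p, p * α + p * k s * β + γ, hp, hs', ?_⟩
      intro h1
      have h2 := (hC4 h1).2.2 s
      have h3 : (p • (A0 + k s • B0)) * (p • (A0 + k s • B0)) = 0 := by
        have h4 : (A0 + k s • B0) * (A0 + k s • B0) =
            A0 * A0 + k s • (A0 * B0 + B0 * A0) + (k s * k s) • (B0 * B0) := by
          simp only [mul_add, add_mul, smul_mul_assoc, mul_smul_comm, smul_add, smul_smul]
          abel
        rw [smul_mul_assoc, mul_smul_comm, h4, hA0, hB0, hAB0]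
        simp
      have h5 := sr_scalar_add_sq_zero (p * α + p * k s * β + γ) h3
      rw [add_comm, ← hs', h2] at h5
      exact norm_eq_zero.mp h5.symm
    have hid2 : Id2 A0 B0 := cd_id2 hσ hA0 hB0 hAB0 hfam hk hC'
    have hnA : ¬ ∃ c : ℂ, A0 = c • B0 := by
      rintro ⟨c, hc⟩
      refine hN1 c (α - c * β) ?_
      rw [hA, hB, hc]
      module
    have hnB : ¬ ∃ c : ℂ, B0 = c • A0 := by
      rintro ⟨c, hc⟩
      refine hN2 c (β - c * α) ?_
      rw [hA, hB, hc]
      module
    obtain ⟨x, y, f, g, hAx, hBy, halt⟩ := rank_one_of_id2 hid2 hnA hnB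
    have hx : x ≠ 0 := by
      rintro rfl
      exact hnA ⟨0, by rw [hAx]; ext z; simp⟩
    have hf : f ≠ 0 := by
      rintro rfl
      exact hnA ⟨0, by rw [hAx]; ext z; simp⟩
    have hy : y ≠ 0 := by
      rintro rfl
      exact hnB ⟨0, by rw [hBy]; ext z; simp⟩
    have hg : g ≠ 0 := by
      rintro rfl
      exact hnB ⟨0, by rw [hBy]; ext z; simp⟩
    have hnil : ∀ (x : X) (f : X →L[ℂ] ℂ), x ≠ 0 → f ≠ 0 → rk x f * rk x f = 0 → f x = 0 := by
      intro x f hx hf h1
      obtain ⟨z, hz⟩ : ∃ z, f z ≠ 0 := by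
        by_contra hcon
        push Not at hcon
        exact hf (ContinuousLinearMap.ext hcon)
      have h2 : (rk x f * rk x f) z = (0 : X →L[ℂ] X) z := by rw [h1]
      have h3 : (rk x f * rk x f) z = (f z * f x) • x := by
        show f (f z • x) • x = _
        rw [map_smul, smul_eq_mul]
      rw [h3, zero_apply, smul_eq_zero, mul_eq_zero] at h2
      rcases h2 with (h2 | h2) | h2
      · exact absurd h2 hz
      · exact h2
      · exact absurd h2 hx
    refine ⟨x, y, f, g, α, β, hx, hy, hf, hg, ?_, ?_, ?_, ?_, hαβ, halt⟩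
    · exact hnil x f hx hf (hAx ▸ hA0)
    · exact hnil y g hy hg (hBy ▸ hB0)
    · rw [hA, hAx]
    · rw [hB, hBy]
  · -- the degenerate case
    push Not at h0
    rcases lld A B hX h0 with ⟨p, q, r, hpqr, heq⟩ | ⟨l, m, u, f, g, hA, hB⟩
    · exfalso
      by_cases hp : p = 0
      · subst hp
        by_cases hq : q = 0
        · subst hq
          have hr : r ≠ 0 := by
            rintro rfl
            exact hpqr rfl
          rw [zero_smul, zero_smul, zero_add, zero_add, smul_eq_zero] at heq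
          rcases heq with heq | heq
          · exact hr heq
          · exact one_ne_zero heq
        · refine hN2 0 (-(r / q)) ?_
          have h1 : q • B = -(r • (1 : X →L[ℂ] X)) := by
            rw [zero_smul, zero_add] at heq
            exact eq_neg_of_add_eq_zero_left heq
          have h2 : B = q⁻¹ • (q • B) := by rw [smul_smul, inv_mul_cancel₀ hq, one_smul]
          rw [h2, h1]
          rw [zero_smul, zero_add, smul_neg, smul_smul, neg_smul]
          congr 2
          field_simp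
      · refine hN1 (-(q / p)) (-(r / p)) ?_
        have h1 : p • A = -(q • B + r • (1 : X →L[ℂ] X)) := by
          rw [add_assoc] at heq
          exact eq_neg_of_add_eq_zero_left heq
        have h2 : A = p⁻¹ • (p • A) := by rw [smul_smul, inv_mul_cancel₀ hp, one_smul]
        rw [h2, h1]
        rw [smul_neg, smul_add, smul_smul, smul_smul, neg_add, neg_smul, neg_smul]
        congr 3 <;> field_simp
    · have hu : u ≠ 0 := by
        rintro rfl
        refine hN1 0 l ?_
        rw [hA]; ext z; simp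
      have hfg : LinearIndependent ℂ ![f, g] := by
        have hf0 : f ≠ 0 := by
          rintro rfl
          refine hN1 0 l ?_
          rw [hA]; ext z; simp
        rw [LinearIndependent.pair_iff' hf0]
        intro c hc
        refine hN2 c (m - c * l) ?_
        rw [hB, hA, ← hc]
        ext z
        simp only [add_apply, smul_apply, one_apply, rk_apply]
        module
      have hf : f ≠ 0 := hfg.ne_zero 0
      have hg : g ≠ 0 := hfg.ne_zero 1
      rcases hσ with rfl | rfl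
      · obtain ⟨h1, h2, -⟩ := hC4 rfl
        rw [hA, sr_scalar_add_rk l u f hd2] at h1
        rw [hB, sr_scalar_add_rk m u g hd2] at h2
        have hl : l = 0 := norm_le_zero_iff.mp (h1 ▸ le_max_left _ _)
        have hm : m = 0 := norm_le_zero_iff.mp (h2 ▸ le_max_left _ _)
        have hlf : l + f u = 0 := norm_le_zero_iff.mp (h1 ▸ le_max_right _ _)
        have hmg : m + g u = 0 := norm_le_zero_iff.mp (h2 ▸ le_max_right _ _)
        rw [hl, zero_add] at hlf
        rw [hm, zero_add] at hmg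
        refine ⟨u, u, f, g, 0, 0, hu, hu, hf, hg, hlf, hmg, ?_, ?_, fun _ => ⟨rfl, rfl⟩,
          Or.inl ⟨⟨1, (one_smul _ _).symm⟩, hfg⟩⟩
        · rw [hA, hl, add_comm]
        · rw [hB, hm, add_comm]
      · have hflag' : ∀ (y : X) (e : X →L[ℂ] ℂ), e y = 0 →
            PhaseFam (e ((l • (1 : X →L[ℂ] X) + rk u f) y))
              (e ((m • (1 : X →L[ℂ] X) + rk u g) y)) (fun s => e (C s y)) := by
          intro y e he
          rw [← hA, ← hB]
          exact hflag y e he
        obtain ⟨k, hk, hCk⟩ := cd_claim_deg hX hu hfg hflag'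
        have hid1 : Id1 (rk u f) (rk u g) := cd_id1 (Or.inr rfl) hfam hk hCk
        obtain ⟨hfu, hgu⟩ := nilp_of_id1_deg hu hfg hid1
        refine ⟨u, u, f, g, l, m, hu, hu, hf, hg, hfu, hgu, ?_, ?_, ?_,
          Or.inl ⟨⟨1, (one_smul _ _).symm⟩, hfg⟩⟩
        · rw [hA, add_comm]
        · rw [hB, add_comm]
        · intro h1
          exfalso
          norm_num at h1

end cd

end PR
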