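import Pool.Agent.Helper40.PR.Defs3
import Pool.Agent.Helper55.PR.TK4B
import Pool.Agent.Helper28.PR.E1

/-!
# Images of `i P` and Wigner's condition for preservers of the skew Lie product
-/

namespace PR

open ContinuousLinearMap InnerProductSpace Complex

open scoped ComplexConjugate

section e6

variable {H : Type*} [NormedAddCommGroup H] [InnerProductSpace ℂ H] [CompleteSpace H]
variable {K : Type*} [NormedAddCommGroup K] [InnerProductSpace ℂ K] [CompleteSpace K]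

/-- equality in the Cauchy-Schwarz inequality -/
theorem e6_eq_smul_of_cs {x v : H} (hx : ‖x‖ = 1) (h : ‖v‖ ^ 2 ≤ ‖inner ℂ x v‖ ^ 2) :
    v = inner ℂ x v • x := by
  have h1 : ‖v - inner ℂ x v • x‖ ^ 2 = ‖v‖ ^ 2 - ‖inner ℂ x v‖ ^ 2 := by
    rw [@norm_sub_sq ℂ, inner_smul_right, ← inner_conj_symm v x, Complex.mul_conj', norm_smul, hx]
    have h2 : (RCLike.re (((‖inner ℂ x v‖ : ℝ) : ℂ) ^ 2) : ℝ) = ‖inner ℂ x v‖ ^ 2 := by
      rw [← Complex.ofReal_pow]; rfl
    rw [h2]; ring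
  have h3 : ‖v - inner ℂ x v • x‖ ^ 2 ≤ 0 := by rw [h1]; linarith
  have h4 : ‖v - inner ℂ x v • x‖ = 0 := by
    have := sq_nonneg ‖v - inner ℂ x v • x‖
    exact pow_eq_zero_iff (two_ne_zero) |>.1 (le_antisymm h3 this)
  exact sub_eq_zero.mp (norm_eq_zero.mp h4)

theorem e6_sr_po (x y : H) : sr (po x y) = ‖inner ℂ y x‖ := sr_rk x (innerSL ℂ y)

theorem e6_sr_po_self {x : H} (hx : ‖x‖ = 1) : sr (po x x) = 1 := by
  rw [e6_sr_po, inner_self_eq_norm_sq_to_K, hx]
  simp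

/-- the values of the tests for `i P` -/
theorem e6_src {y z : H} (hy : ‖y‖ = 1) (hz : ‖z‖ = 1) :
    sr (skb (po z z) (I • po y y)) ^ 2 = ‖inner ℂ y z‖ ^ 2 * (1 - ‖inner ℂ y z‖ ^ 2) ∧
    sr (skb (I • po y y) (po z z)) = ‖inner ℂ y z‖ ^ 2 + ‖inner ℂ y z‖ := by
  have hyy : inner ℂ y y = (1 : ℂ) := by
    rw [inner_self_eq_norm_sq_to_K, hy]; simp
  have hle : ‖inner ℂ y z‖ ≤ 1 := by
    have := norm_inner_le_norm (𝕜 := ℂ) y z
    rwa [hy, hz, one_mul] at this
  have hzy : inner ℂ z y = conj (inner ℂ y z) := (inner_conj_symm z y).symm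
  have h1 : inner ℂ z ((I • po y y) z) = I * ((‖inner ℂ y z‖ ^ 2 : ℝ) : ℂ) := by
    rw [smul_apply, po_apply, inner_smul_right, inner_smul_right, hzy, Complex.mul_conj']
    push_cast; ring
  have h2 : inner ℂ z ((I • po y y) ((I • po y y) z)) = -((‖inner ℂ y z‖ ^ 2 : ℝ) : ℂ) := by
    have h3 : (I • po y y) ((I • po y y) z) = -(inner ℂ y z • y) := by
      rw [smul_apply, po_apply, smul_apply, po_apply, inner_smul_right, inner_smul_right, hyy,
        smul_smul]
      rw [show I * (I * (inner ℂ y z * 1)) = -(inner ℂ y z) by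
        linear_combination (inner ℂ y z) * I_mul_I]
      rw [neg_smul]
    rw [h3, inner_neg_right, inner_smul_right, hzy, Complex.mul_conj']
    push_cast; ring
  constructor
  · rw [e_P_test _ hz, h1, h2]
    have h3 : -((‖inner ℂ y z‖ ^ 2 : ℝ) : ℂ) - (I * ((‖inner ℂ y z‖ ^ 2 : ℝ) : ℂ)) ^ 2 =
        ((-(‖inner ℂ y z‖ ^ 2 * (1 - ‖inner ℂ y z‖ ^ 2)) : ℝ) : ℂ) := by
      rw [mul_pow, I_sq]; push_cast; ring
    rw [h3, Complex.norm_real, Real.norm_eq_abs, abs_neg, abs_of_nonneg]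
    apply mul_nonneg (sq_nonneg _)
    nlinarith [norm_nonneg (inner ℂ y z)]
  · rw [e_test_P _ hz, h1]
    have h3 : ‖(I • po y y) z‖ = ‖inner ℂ y z‖ := by
      rw [smul_apply, po_apply, norm_smul, norm_smul, hy, Complex.norm_I]; ring
    rw [h3]
    have h4 : (I * ((‖inner ℂ y z‖ ^ 2 : ℝ) : ℂ)).im = ‖inner ℂ y z‖ ^ 2 := by simp [-Complex.ofReal_pow]
    have h5 : (I * ((‖inner ℂ y z‖ ^ 2 : ℝ) : ℂ)).re = 0 := by simp [-Complex.ofReal_pow]
    rw [h4, h5, abs_of_nonneg (sq_nonneg _)]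
    congr 1
    rw [show ‖inner ℂ y z‖ ^ 2 - (0 : ℝ) ^ 2 = ‖inner ℂ y z‖ ^ 2 by ring]
    exact Real.sqrt_sq (norm_nonneg _)

/-- the values of the tests for `a + w ⊗ y` -/
theorem e6_tgt (a : ℝ) (w y : H) {u : H} (hu : ‖u‖ = 1) :
    sr (skb (po u u) ((a : ℂ) • (1 : H →L[ℂ] H) + po w y)) ^ 2 =
      ‖inner ℂ u w * inner ℂ y u * (inner ℂ y w - inner ℂ u w * inner ℂ y u)‖ ∧
    sr (skb ((a : ℂ) • (1 : H →L[ℂ] H) + po w y) (po u u)) =
      |(inner ℂ u w * inner ℂ y u).im| +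
        √(‖inner ℂ y u‖ ^ 2 * ‖w‖ ^ 2 - (inner ℂ u w * inner ℂ y u).re ^ 2) := by
  have huu : inner ℂ u u = (1 : ℂ) := by
    rw [inner_self_eq_norm_sq_to_K, hu]; simp
  have hT : ∀ v, ((a : ℂ) • (1 : H →L[ℂ] H) + po w y) v = (a : ℂ) • v + inner ℂ y v • w := by
    intro v; simp
  have h1 : inner ℂ u (((a : ℂ) • (1 : H →L[ℂ] H) + po w y) u) =
      (a : ℂ) + inner ℂ u w * inner ℂ y u := by
    rw [hT, inner_add_right, inner_smul_right, inner_smul_right, huu]; ring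
  have h2 : inner ℂ u (((a : ℂ) • (1 : H →L[ℂ] H) + po w y)
      (((a : ℂ) • (1 : H →L[ℂ] H) + po w y) u)) =
      (a : ℂ) * ((a : ℂ) + inner ℂ u w * inner ℂ y u) +
        ((a : ℂ) * inner ℂ y u + inner ℂ y u * inner ℂ y w) * inner ℂ u w := by
    rw [hT (((a : ℂ) • (1 : H →L[ℂ] H) + po w y) u), inner_add_right, inner_smul_right,
      inner_smul_right, h1, hT, inner_add_right, inner_smul_right, inner_smul_right]
  constructor
  · rw [e_P_test _ hu, h1, h2]
    congr 1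
    ring
  · rw [e_test_P _ hu, h1]
    have h3 : ‖((a : ℂ) • (1 : H →L[ℂ] H) + po w y) u‖ ^ 2 =
        a ^ 2 + 2 * a * (inner ℂ u w * inner ℂ y u).re + ‖inner ℂ y u‖ ^ 2 * ‖w‖ ^ 2 := by
      rw [hT, @norm_add_sq ℂ, inner_smul_left, inner_smul_right, norm_smul, norm_smul, hu]
      have h4 : RCLike.re ((starRingEnd ℂ) (a : ℂ) * (inner ℂ y u * inner ℂ u w)) =
          a * (inner ℂ u w * inner ℂ y u).re := by
        rw [Complex.conj_ofReal, mul_comm (inner ℂ y u)]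
        exact Complex.re_ofReal_mul _ _
      rw [h4, Complex.norm_real, Real.norm_eq_abs, mul_one, sq_abs]
      ring
    rw [h3]
    have h5 : ((a : ℂ) + inner ℂ u w * inner ℂ y u).im = (inner ℂ u w * inner ℂ y u).im := by simp
    have h6 : ((a : ℂ) + inner ℂ u w * inner ℂ y u).re = a + (inner ℂ u w * inner ℂ y u).re := by
      simp
    rw [h5, h6]
    congr 2
    ring

end e6

section e6c

variable {K : Type*} [NormedAddCommGroup K] [InnerProductSpace ℂ K]

theorem e6_inner_self_c (x : K) : inner ℂ x x = ((‖x‖ : ℝ) : ℂ) ^ 2 :=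
  inner_self_eq_norm_sq_to_K x

theorem e6_inner_self_one {x : K} (hx : ‖x‖ = 1) : inner ℂ x x = (1 : ℂ) := by
  rw [inner_self_eq_norm_sq_to_K, hx]; simp

/-- the solution of the equations for `w`, `y` -/
theorem e6_core {w y z0 : K} (hy : ‖y‖ = 1) (hz0 : ‖z0‖ = 1) (hyz0 : inner ℂ y z0 = (0 : ℂ))
    {R : K → ℝ → Prop} (hex : ∀ u, ‖u‖ = 1 → ∃ r, R u r)
    (h01 : ∀ u r, ‖u‖ = 1 → R u r → 0 ≤ r ∧ r ≤ 1)
    (hP1 : ∀ u r, ‖u‖ = 1 → R u r →
      ‖inner ℂ u w * inner ℂ y u * (inner ℂ y w - inner ℂ u w * inner ℂ y u)‖ = r ^ 2 * (1 - r ^ 2))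
    (hP2 : ∀ u r, ‖u‖ = 1 → R u r →
      |(inner ℂ u w * inner ℂ y u).im| +
        √(‖inner ℂ y u‖ ^ 2 * ‖w‖ ^ 2 - (inner ℂ u w * inner ℂ y u).re ^ 2) = r ^ 2 + r)
    (hP3 : R y 1) (hP4 : ∀ u, ‖u‖ = 1 → R u 1 → ∃ c : ℂ, u = c • y) :
    (∃ δ : ℂ, (δ = I ∨ δ = -I) ∧ w = δ • y) ∧ ∀ u r, ‖u‖ = 1 → R u r → r = ‖inner ℂ y u‖ := by
  have hyy := e6_inner_self_one hy
  have hq : ∀ r : ℝ, r ^ 2 * (1 - r ^ 2) ≤ 1 / 4 := fun r => by
    nlinarith [sq_nonneg (r ^ 2 - 1 / 2)]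
  have hs2 : (0 : ℝ) < √2 := Real.sqrt_pos.mpr (by norm_num)
  have hs2' : ((√2 : ℝ) : ℂ) ≠ 0 := by exact_mod_cast hs2.ne'
  have hs2sq : ((√2 : ℝ) : ℂ) * ((√2 : ℝ) : ℂ) = 2 := by
    rw [← Complex.ofReal_mul, Real.mul_self_sqrt (by norm_num)]; norm_num
  have hinv : (((√2 : ℝ) : ℂ)⁻¹) * (((√2 : ℝ) : ℂ)⁻¹) = 1 / 2 := by
    rw [← mul_inv, hs2sq]; norm_num
  have hconjinv : conj (((√2 : ℝ) : ℂ)⁻¹) = ((√2 : ℝ) : ℂ)⁻¹ := by
    rw [map_inv₀, Complex.conj_ofReal]
  -- unit vectors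
  have hunit : ∀ v : K, inner ℂ v v = (2 : ℂ) → ‖(((√2 : ℝ) : ℂ)⁻¹) • v‖ = 1 := by
    intro v hv
    rw [e6_inner_self_c] at hv
    have hv' : ‖v‖ ^ 2 = 2 := by exact_mod_cast hv
    have hv'' : ‖v‖ = √2 := by
      rw [← hv', Real.sqrt_sq (norm_nonneg _)]
    rw [norm_smul, norm_inv, Complex.norm_real, Real.norm_eq_abs, abs_of_pos hs2, hv'']
    exact inv_mul_cancel₀ hs2.ne'
  -- step 3
  have hδ : inner ℂ y w ≠ (0 : ℂ) := by
    intro h0
    have hwy : inner ℂ w y = (0 : ℂ) := by rw [← inner_conj_symm, h0, map_zero]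
    have h2 := hP2 y 1 hy hP3
    rw [h0, zero_mul] at h2
    rw [hyy] at h2
    have hw2 : ‖w‖ = 2 := by
      simp only [Complex.zero_im, abs_zero, Complex.zero_re, norm_one, one_pow, one_mul, zero_add,
        ne_eq, OfNat.ofNat_ne_zero, not_false_eq_true, zero_pow, sub_zero,
        Real.sqrt_sq (norm_nonneg w)] at h2
      rw [h2]; norm_num
    have hww : inner ℂ w w = (4 : ℂ) := by
      rw [e6_inner_self_c, hw2]; norm_num
    have hv : inner ℂ (y + (1 / 2 : ℂ) • w) (y + (1 / 2 : ℂ) • w) = (2 : ℂ) := by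
      have h2c : (starRingEnd ℂ) (1 / 2 : ℂ) = 1 / 2 := by
        rw [map_div₀, map_one, Complex.conj_ofNat]
      rw [inner_add_left, inner_add_right, inner_add_right, inner_smul_left, inner_smul_right,
        inner_smul_left, inner_smul_right, h0, hwy, hww, hyy, h2c]
      norm_num
    have hu := hunit _ hv
    obtain ⟨r, hr⟩ := hex _ hu
    have h3 := hP1 _ r hu hr
    have h4 : inner ℂ ((((√2 : ℝ) : ℂ)⁻¹) • (y + (1 / 2 : ℂ) • w)) w *
        inner ℂ y ((((√2 : ℝ) : ℂ)⁻¹) • (y + (1 / 2 : ℂ) • w)) = 1 := by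
      rw [inner_smul_left, inner_smul_right, inner_add_left, inner_add_right, inner_smul_left,
        inner_smul_right, h0, hww, hyy, hconjinv]
      have h2c : (starRingEnd ℂ) (1 / 2 : ℂ) = 1 / 2 := by
        rw [map_div₀, map_one, Complex.conj_ofNat]
      rw [h2c]
      linear_combination 2 * hinv
    rw [h4, h0] at h3
    have h5 := hq r
    rw [← h3] at h5
    norm_num at h5
  have hw0 : w ≠ 0 := by
    rintro rfl
    exact hδ (inner_zero_right _)
  -- step 4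
  have hw : w = inner ℂ y w • y := by
    by_contra hcon
    have hwn : (0 : ℝ) < ‖w‖ := norm_pos_iff.mpr hw0
    have hwn' : ((‖w‖ : ℝ) : ℂ) ^ 2 ≠ 0 := pow_ne_zero _ (by exact_mod_cast hwn.ne')
    obtain ⟨c, hc⟩ : ∃ c : ℂ, c = inner ℂ w y / ((‖w‖ : ℝ) : ℂ) ^ 2 := ⟨_, rfl⟩
    have hwv : inner ℂ w (y - c • w) = (0 : ℂ) := by
      rw [inner_sub_right, inner_smul_right, e6_inner_self_c, hc]
      rw [div_mul_cancel₀ _ hwn', sub_self]
    have hv0 : y - c • w ≠ 0 := by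
      intro h0
      have h1 : y = c • w := sub_eq_zero.mp h0
      have hc0 : c ≠ 0 := by
        rintro rfl
        rw [zero_smul] at h1
        rw [h1, norm_zero] at hy
        exact zero_ne_one hy
      have h2 : w = c⁻¹ • y := by rw [h1, smul_smul, inv_mul_cancel₀ hc0, one_smul]
      apply hcon
      have h3 : inner ℂ y w = c⁻¹ := by
        rw [h2, inner_smul_right, hyy, mul_one]
      rw [h3]; exact h2
    have hvn : (0 : ℝ) < ‖y - c • w‖ := norm_pos_iff.mpr hv0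
    have hyv : inner ℂ y (y - c • w) = (((‖y - c • w‖ : ℝ) : ℂ) ^ 2) := by
      have h1 : y = (y - c • w) + c • w := by abel
      have h2 : inner ℂ ((y - c • w) + c • w) (y - c • w) = inner ℂ (y - c • w) (y - c • w) +
        conj c * inner ℂ w (y - c • w) := by rw [inner_add_left, inner_smul_left]
      rw [← h1, hwv, mul_zero, add_zero, e6_inner_self_c] at h2
      exact h2
    have hu : ‖(((‖y - c • w‖ : ℝ) : ℂ)⁻¹) • (y - c • w)‖ = 1 := by
      rw [norm_smul, norm_inv, Complex.norm_real, norm_norm]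
      exact inv_mul_cancel₀ hvn.ne'
    have huw : inner ℂ ((((‖y - c • w‖ : ℝ) : ℂ)⁻¹) • (y - c • w)) w = (0 : ℂ) := by
      rw [inner_smul_left, ← inner_conj_symm, hwv, map_zero, mul_zero]
    have hyu : inner ℂ y ((((‖y - c • w‖ : ℝ) : ℂ)⁻¹) • (y - c • w)) =
        ((‖y - c • w‖ : ℝ) : ℂ) := by
      rw [inner_smul_right, hyv]
      have : ((‖y - c • w‖ : ℝ) : ℂ) ≠ 0 := by exact_mod_cast hvn.ne'
      field_simp
    obtain ⟨r, hr⟩ := hex _ hu
    have h1 := hP1 _ r hu hr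
    have h2 := hP2 _ r hu hr
    rw [huw, zero_mul, zero_mul, norm_zero] at h1
    rw [huw, zero_mul, hyu] at h2
    simp only [Complex.zero_im, abs_zero, Complex.zero_re, zero_add,
        ne_eq, OfNat.ofNat_ne_zero, not_false_eq_true, zero_pow, sub_zero, Complex.norm_real,
        norm_norm] at h2
    rw [← mul_pow, Real.sqrt_sq (by positivity)] at h2
    have h3 : 0 < r ^ 2 + r := by rw [← h2]; positivity
    obtain ⟨hr0, hr1⟩ := h01 _ r hu hr
    have hr2 : r = 1 := by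
      rcases mul_eq_zero.mp h1.symm with h4 | h4
      · have : r = 0 := by simpa using h4
        rw [this] at h3; norm_num at h3
      · nlinarith
    rw [hr2] at hr
    obtain ⟨d, hd⟩ := hP4 _ hu hr
    rw [hd, inner_smul_left] at huw
    rcases mul_eq_zero.mp huw with h5 | h5
    · have : d = 0 := by simpa using h5
      rw [this, zero_smul] at hd
      rw [hd, norm_zero] at hu
      exact zero_ne_one hu
    · exact hδ h5
  -- step 5
  obtain ⟨δ, hδdef⟩ : ∃ δ : ℂ, δ = inner ℂ y w := ⟨_, rfl⟩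
  rw [← hδdef] at hw hδ
  have hs : ∀ u : K, inner ℂ u w * inner ℂ y u = δ * ((‖inner ℂ y u‖ ^ 2 : ℝ) : ℂ) := by
    intro u
    rw [hw, inner_smul_right, ← inner_conj_symm u y]
    have := Complex.mul_conj' (inner ℂ y u)
    push_cast
    linear_combination δ * this
  have hwn : ‖w‖ = ‖δ‖ := by rw [hw, norm_smul, hy, mul_one]
  have hnd : ‖δ‖ ^ 2 = δ.re ^ 2 + δ.im ^ 2 := by
    rw [← Complex.normSq_eq_norm_sq, Complex.normSq_apply]; ring
  have him : |δ.im| = 1 := by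
    have h2 := hP2 y 1 hy hP3
    rw [hs, hyy, hwn] at h2
    simp only [norm_one, one_pow, Complex.ofReal_one, mul_one, one_mul] at h2
    rw [hnd, add_sub_cancel_left, Real.sqrt_sq_eq_abs] at h2
    linarith
  have hre : δ.re = 0 := by
    have hv : inner ℂ (y + z0) (y + z0) = (2 : ℂ) := by
      rw [inner_add_left, inner_add_right, inner_add_right, hyz0, ← inner_conj_symm z0 y, hyz0,
        hyy, e6_inner_self_one hz0, map_zero]
      norm_num
    have hu := hunit _ hv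
    obtain ⟨r, hr⟩ := hex _ hu
    have h3 := hP1 _ r hu hr
    have h4 : ‖inner ℂ y ((((√2 : ℝ) : ℂ)⁻¹) • (y + z0))‖ ^ 2 = 1 / 2 := by
      rw [inner_smul_right, inner_add_right, hyz0, hyy, add_zero, mul_one, norm_inv,
        Complex.norm_real, Real.norm_eq_abs, abs_of_pos hs2, inv_pow, Real.sq_sqrt (by norm_num)]
      norm_num
    rw [hs, h4, ← hδdef] at h3
    have h5 : δ * (((1 / 2 : ℝ)) : ℂ) * (δ - δ * (((1 / 2 : ℝ)) : ℂ)) = (δ * δ) * (1 / 4) := by
      push_cast; ring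
    rw [h5, norm_mul, norm_mul] at h3
    have h6 : ‖(1 / 4 : ℂ)‖ = 1 / 4 := by norm_num
    rw [h6] at h3
    have h7 := hq r
    have h8 : ‖δ‖ ^ 2 ≤ 1 := by nlinarith
    have h9 : δ.im ^ 2 = 1 := by rw [← sq_abs, him]; norm_num
    rw [hnd, h9] at h8
    have h10 : δ.re ^ 2 ≤ 0 := by linarith
    exact pow_eq_zero_iff two_ne_zero |>.1 (le_antisymm h10 (sq_nonneg _))
  have hδ1 : ‖δ‖ = 1 := by
    have h9 : δ.im ^ 2 = 1 := by rw [← sq_abs, him]; norm_num
    rw [hre, h9] at hnd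
    have : ‖δ‖ ^ 2 = 1 := by rw [hnd]; norm_num
    nlinarith [norm_nonneg δ]
  refine ⟨⟨δ, ?_, hw⟩, ?_⟩
  · rcases eq_or_eq_neg_of_abs_eq him with h | h
    · left; apply Complex.ext <;> simp [hre, h]
    · right; apply Complex.ext <;> simp [hre, h]
  · intro u r hu hr
    have h2 := hP2 u r hu hr
    obtain ⟨hr0, hr1⟩ := h01 u r hu hr
    rw [hs, hwn, hδ1] at h2
    have h3 : (δ * ((‖inner ℂ y u‖ ^ 2 : ℝ) : ℂ)).im = δ.im * ‖inner ℂ y u‖ ^ 2 := by
      rw [mul_comm, Complex.im_ofReal_mul, mul_comm]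
    have h4 : (δ * ((‖inner ℂ y u‖ ^ 2 : ℝ) : ℂ)).re = 0 := by
      rw [mul_comm, Complex.re_ofReal_mul, hre, mul_zero]
    rw [h3, h4, abs_mul, him, one_mul, abs_of_nonneg (sq_nonneg _)] at h2
    have h5 : √(‖inner ℂ y u‖ ^ 2 * (1 : ℝ) ^ 2 - (0 : ℝ) ^ 2) = ‖inner ℂ y u‖ := by
      rw [show ‖inner ℂ y u‖ ^ 2 * (1 : ℝ) ^ 2 - (0 : ℝ) ^ 2 = ‖inner ℂ y u‖ ^ 2 by ring]
      exact Real.sqrt_sq (norm_nonneg _)
    rw [h5] at h2
    have h6 : (r - ‖inner ℂ y u‖) * (r + ‖inner ℂ y u‖ + 1) = 0 := by linarith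
    rcases mul_eq_zero.mp h6 with h7 | h7
    · linarith
    · have := norm_nonneg (inner ℂ y u)
      linarith

end e6c

section e6d

variable {H : Type*} [NormedAddCommGroup H] [InnerProductSpace ℂ H] [CompleteSpace H]
variable {K : Type*} [NormedAddCommGroup K] [InnerProductSpace ℂ K] [CompleteSpace K]

theorem e6_po_smul_self {θ : ℂ} (hθ : ‖θ‖ = 1) (x : H) : po (θ • x) (θ • x) = po x x := by
  ext z
  rw [po_apply, po_apply, inner_smul_left, smul_smul]
  congr 1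
  have h1 : conj θ * θ = 1 := by
    rw [mul_comm, Complex.mul_conj', hθ]; norm_num
  linear_combination (inner ℂ x z) * h1

theorem e6_test_right {T S S' : H →L[ℂ] H} (h : S = S' ∨ S = -S') :
    sr (skb T S) = sr (skb T S') := by
  rcases h with rfl | rfl
  · rfl
  · have h1 := e_smul_right T S' (-1)
    rw [neg_one_smul, norm_neg, norm_one, one_mul] at h1
    exact h1

theorem e6_test_left {T T' S : H →L[ℂ] H} (h : T = T' ∨ T = -T') :
    sr (skb T S) = sr (skb T' S) := by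
  rcases h with rfl | rfl
  · rfl
  · exact e_neg_left _ _

/-- a unit vector orthogonal to a given one -/
theorem e6_exists_orth (hH : Dim2 H) {y : H} (hy : ‖y‖ = 1) : ∃ x : H, ‖x‖ = 1 ∧ inner ℂ y x = (0 : ℂ) := by
  obtain ⟨v, hv⟩ := hH
  have hyy := e6_inner_self_one hy
  have key : ∀ z : H, z - inner ℂ y z • y ≠ 0 → ∃ x : H, ‖x‖ = 1 ∧ inner ℂ y x = (0 : ℂ) := by
    intro z hz
    have hn : ‖z - inner ℂ y z • y‖ ≠ 0 := norm_ne_zero_iff.mpr hz
    refine ⟨((‖z - inner ℂ y z • y‖ : ℝ) : ℂ)⁻¹ • (z - inner ℂ y z • y), ?_, ?_⟩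
    · rw [norm_smul, norm_inv, Complex.norm_real, norm_norm]
      exact inv_mul_cancel₀ hn
    · rw [inner_smul_right, inner_sub_right, inner_smul_right, hyy, mul_one, sub_self, mul_zero]
  by_contra hcon
  have h0 : ∀ z : H, z = inner ℂ y z • y := by
    intro z
    by_contra hz
    exact hcon (key z (fun h => hz (sub_eq_zero.mp h)))
  have h1 := h0 (v 0)
  have h2 := h0 (v 1)
  have hv' : LinearIndependent ℂ ![v 0, v 1] := by
    convert hv using 1
    ext i; fin_cases i <;> rfl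
  rw [LinearIndependent.pair_iff] at hv'
  have h3 := hv' (inner ℂ y (v 1)) (-(inner ℂ y (v 0))) (by
    rw [h1, h2]
    simp only [inner_smul_right, hyy, mul_one]
    module)
  have h4 : v 0 = 0 := by
    rw [h1, neg_eq_zero.mp h3.2, zero_smul]
  exact hv.ne_zero 0 h4

/-- E6, assuming that the spectral radius is preserved (see `e_norm`). -/
theorem e_iP_of_norm {φ : (H →L[ℂ] H) → (K →L[ℂ] K)} (hφ : PresE φ) (hH : Dim2 H)
    (hnorm : ∀ S, sr (φ S) = sr S) {π : H → K}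
    (h1 : ∀ x, ‖x‖ = 1 → ‖π x‖ = 1 ∧ ∃ a : ℝ, a ≠ 0 ∧ φ (po x x) = (a : ℂ) • po (π x) (π x))
    (h2 : ∀ u : K, ‖u‖ = 1 → ∃ x, ‖x‖ = 1 ∧ ∃ θ : ℂ, ‖θ‖ = 1 ∧ u = θ • π x)
    (h3 : ∀ x y, ‖x‖ = 1 → ‖y‖ = 1 → (inner ℂ x y = (0 : ℂ) ↔ inner ℂ (π x) (π y) = (0 : ℂ))) :
    (∀ y, ‖y‖ = 1 → φ (po y y) = po (π y) (π y) ∨ φ (po y y) = -po (π y) (π y)) ∧
    (∀ y, ‖y‖ = 1 → φ (I • po y y) = I • po (π y) (π y) ∨ φ (I • po y y) = -(I • po (π y) (π y))) ∧
    (∀ x y, ‖x‖ = 1 → ‖y‖ = 1 → ‖inner ℂ (π x) (π y)‖ = ‖inner ℂ x y‖) := by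
  have hA : ∀ y, ‖y‖ = 1 → φ (po y y) = po (π y) (π y) ∨ φ (po y y) = -po (π y) (π y) := by
    intro y hy
    obtain ⟨hπ, a, -, hφy⟩ := h1 y hy
    have h4 := hnorm (po y y)
    rw [hφy, sr_smul, e6_sr_po_self hπ, e6_sr_po_self hy, mul_one, Complex.norm_real,
      Real.norm_eq_abs] at h4
    rcases eq_or_eq_neg_of_abs_eq h4 with h5 | h5
    · left; rw [hφy, h5]; simp
    · right; rw [hφy, h5]; simp
  have main : ∀ y, ‖y‖ = 1 →
      (φ (I • po y y) = I • po (π y) (π y) ∨ φ (I • po y y) = -(I • po (π y) (π y))) ∧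
      ∀ x, ‖x‖ = 1 → ‖inner ℂ y x‖ = ‖inner ℂ (π y) (π x)‖ := by
    intro y hy
    have hy' : ‖π y‖ = 1 := (h1 y hy).1
    have hyy' := e6_inner_self_one hy'
    -- vectors orthogonal to `π y`
    have hB1 : ∀ x, ‖x‖ = 1 → inner ℂ y x = (0 : ℂ) →
        ∃ a : ℝ, φ (I • po y y) (π x) = (a : ℂ) • π x := by
      intro x hx hyx
      have hx' : ‖π x‖ = 1 := (h1 x hx).1
      have h4 : sr (skb (φ (I • po y y)) (po (π x) (π x))) = 0 := by
        rw [← e6_test_right (hA x hx), hφ.pres, (e6_src hy hx).2, hyx, norm_zero]; norm_num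
      rw [e_test_P _ hx'] at h4
      have h5 := abs_nonneg (inner ℂ (π x) (φ (I • po y y) (π x))).im
      have h6 := Real.sqrt_nonneg (‖φ (I • po y y) (π x)‖ ^ 2 -
        (inner ℂ (π x) (φ (I • po y y) (π x))).re ^ 2)
      have h7 : (inner ℂ (π x) (φ (I • po y y) (π x))).im = 0 := by
        apply abs_eq_zero.mp; linarith
      have h8 : √(‖φ (I • po y y) (π x)‖ ^ 2 -
        (inner ℂ (π x) (φ (I • po y y) (π x))).re ^ 2) = 0 := by linarith
      rw [Real.sqrt_eq_zero'] at h8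
      have h9 : ‖inner ℂ (π x) (φ (I • po y y) (π x))‖ ^ 2 =
          (inner ℂ (π x) (φ (I • po y y) (π x))).re ^ 2 := by
        rw [← Complex.normSq_eq_norm_sq, Complex.normSq_apply, h7]; ring
      have h10 := e6_eq_smul_of_cs hx' (v := φ (I • po y y) (π x)) (by rw [h9]; linarith)
      refine ⟨(inner ℂ (π x) (φ (I • po y y) (π x))).re, ?_⟩
      have h11 : (((inner ℂ (π x) (φ (I • po y y) (π x))).re : ℝ) : ℂ) =
          inner ℂ (π x) (φ (I • po y y) (π x)) := by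
        apply Complex.ext <;> simp [h7]
      rw [h11]
      exact h10
    have hB2 : ∀ u : K, inner ℂ (π y) u = (0 : ℂ) →
        ∃ a : ℝ, φ (I • po y y) u = (a : ℂ) • u := by
      intro u hu
      by_cases hu0 : u = 0
      · exact ⟨0, by simp [hu0]⟩
      have hn : ‖u‖ ≠ 0 := norm_ne_zero_iff.mpr hu0
      have hu1 : ‖((‖u‖ : ℝ) : ℂ)⁻¹ • u‖ = 1 := by
        rw [norm_smul, norm_inv, Complex.norm_real, norm_norm]
        exact inv_mul_cancel₀ hn
      obtain ⟨x, hx, θ, hθ, hux⟩ := h2 _ hu1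
      have hθ0 : θ ≠ 0 := by
        rintro rfl
        rw [norm_zero] at hθ
        exact zero_ne_one hθ
      have hnc : ((‖u‖ : ℝ) : ℂ) ≠ 0 := by exact_mod_cast hn
      have hux' : u = (((‖u‖ : ℝ) : ℂ) * θ) • π x := by
        rw [← smul_smul, ← hux, smul_smul, mul_inv_cancel₀ hnc, one_smul]
      have hyx : inner ℂ (π y) (π x) = (0 : ℂ) := by
        rw [hux', inner_smul_right] at hu
        rcases mul_eq_zero.mp hu with h4 | h4
        · exact absurd h4 (mul_ne_zero hnc hθ0)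
        · exact h4
      obtain ⟨a, ha⟩ := hB1 x hx ((h3 y x hy hx).2 hyx)
      refine ⟨a, ?_⟩
      rw [hux', map_smul, ha, smul_comm]
    obtain ⟨x0, hx0, hyx0⟩ := e6_exists_orth hH hy
    have hz0 : ‖π x0‖ = 1 := (h1 x0 hx0).1
    have hyz0 : inner ℂ (π y) (π x0) = (0 : ℂ) := (h3 y x0 hy hx0).1 hyx0
    have hz00 : π x0 ≠ 0 := by
      intro h; rw [h, norm_zero] at hz0; exact zero_ne_one hz0
    obtain ⟨a, ha⟩ := hB2 _ hyz0
    have hB4 : ∀ z : K, inner ℂ (π y) z = (0 : ℂ) → φ (I • po y y) z = (a : ℂ) • z := by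
      intro z hz
      by_cases hpar : ∃ t : ℂ, z = t • π x0
      · obtain ⟨t, rfl⟩ := hpar
        rw [map_smul, ha, smul_comm]
      · obtain ⟨b, hb⟩ := hB2 z hz
        obtain ⟨c, hc⟩ := hB2 (π x0 + z) (by rw [inner_add_right, hyz0, hz, add_zero])
        rw [map_add, ha, hb] at hc
        have hli : LinearIndependent ℂ ![π x0, z] := by
          rw [LinearIndependent.pair_iff' hz00]
          intro t ht
          exact hpar ⟨t, ht.symm⟩
        rw [LinearIndependent.pair_iff] at hli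
        have h4 := hli ((a : ℂ) - c) ((b : ℂ) - c) (by
          rw [sub_smul, sub_smul]
          rw [smul_add] at hc
          calc (a : ℂ) • π x0 - (c : ℂ) • π x0 + ((b : ℂ) • z - (c : ℂ) • z)
              = ((a : ℂ) • π x0 + (b : ℂ) • z) - ((c : ℂ) • π x0 + (c : ℂ) • z) := by abel
            _ = 0 := by rw [hc, sub_self])
        rw [hb]
        congr 1
        linear_combination h4.2 - h4.1
    obtain ⟨w, hw⟩ : ∃ w, w = φ (I • po y y) (π y) - (a : ℂ) • π y := ⟨_, rfl⟩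
    have hT : φ (I • po y y) = (a : ℂ) • (1 : K →L[ℂ] K) + po w (π y) := by
      ext v
      have h4 : inner ℂ (π y) (v - inner ℂ (π y) v • π y) = (0 : ℂ) := by
        rw [inner_sub_right, inner_smul_right, hyy', mul_one, sub_self]
      have h5 := hB4 _ h4
      have h6 : φ (I • po y y) v = φ (I • po y y) (v - inner ℂ (π y) v • π y) +
          inner ℂ (π y) v • φ (I • po y y) (π y) := by
        rw [map_sub, map_smul]; abel
      rw [h6, h5, add_apply, smul_apply, one_apply_eq_self, po_apply, hw, smul_sub, smul_sub,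
        smul_comm (a : ℂ) (inner ℂ (π y) v) (π y)]
      abel
    obtain ⟨⟨δ, hδ, hwδ⟩, hR⟩ := e6_core (w := w) hy' hz0 hyz0
      (R := fun u r => ∃ z : H, ‖z‖ = 1 ∧ (φ (po z z) = po u u ∨ φ (po z z) = -po u u) ∧
        r = ‖inner ℂ y z‖)
      (by
        intro u hu
        obtain ⟨z, hz, θ, hθ, rfl⟩ := h2 u hu
        refine ⟨_, z, hz, ?_, rfl⟩
        rw [e6_po_smul_self hθ]
        exact hA z hz)
      (by
        rintro u r hu ⟨z, hz, -, rfl⟩
        refine ⟨norm_nonneg _, ?_⟩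
        have := norm_inner_le_norm (𝕜 := ℂ) y z
        rwa [hy, hz, one_mul] at this)
      (by
        rintro u r hu ⟨z, hz, hzu, rfl⟩
        rw [← (e6_tgt a w (π y) hu).1, ← hT, ← (e6_src hy hz).1, ← e6_test_left hzu, hφ.pres])
      (by
        rintro u r hu ⟨z, hz, hzu, rfl⟩
        rw [← (e6_tgt a w (π y) hu).2, ← hT, ← (e6_src hy hz).2, ← e6_test_right hzu, hφ.pres])
      ⟨y, hy, hA y hy, by rw [e6_inner_self_one hy, norm_one]⟩
      (by
        rintro u hu ⟨z, hz, hzu, hr⟩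
        have hzy : z = inner ℂ y z • y := by
          apply e6_eq_smul_of_cs hy
          rw [hz, ← hr]
        have hpo : po z z = po y y := by
          rw [hzy]; exact e6_po_smul_self hr.symm y
        rw [hpo] at hzu
        have huu : (po u u) u = u := by rw [po_apply, e6_inner_self_one hu, one_smul]
        have h4 : po u u = po (π y) (π y) ∨ po u u = -po (π y) (π y) := by
          rcases hA y hy with h5 | h5 <;> rcases hzu with h6 | h6
          · left; rw [← h6, h5]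
          · right
            rw [h5] at h6
            rw [h6, neg_neg]
          · right; rw [← h6, h5]
          · left
            rw [h5] at h6
            exact (neg_injective h6).symm
        rcases h4 with h4 | h4
        · refine ⟨inner ℂ (π y) u, ?_⟩
          rw [h4, po_apply] at huu
          exact huu.symm
        · refine ⟨-inner ℂ (π y) u, ?_⟩
          rw [h4, neg_apply, po_apply] at huu
          rw [neg_smul]
          exact huu.symm)
    have hwpo : po w (π y) = δ • po (π y) (π y) := by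
      ext v
      rw [smul_apply, po_apply, po_apply, hwδ, smul_comm]
    have ha0 : a = 0 := by
      have h4 : sr (φ (I • po y y)) = 1 := by
        rw [hnorm, sr_smul, e6_sr_po_self hy, Complex.norm_I, mul_one]
      have hπ0 : π y ≠ 0 := by
        intro h; rw [h, norm_zero] at hy'; exact zero_ne_one hy'
      have h5 : φ (I • po y y) (π y) = ((a : ℂ) + δ) • π y := by
        rw [hT, hwpo, add_apply, smul_apply, smul_apply, one_apply_eq_self, po_apply, hyy', one_smul,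
          add_smul]
      have h6 := norm_le_sr hπ0 h5
      rw [h4] at h6
      have h7 : ‖(a : ℂ) + δ‖ ^ 2 = a ^ 2 + 1 := by
        rw [← Complex.normSq_eq_norm_sq, Complex.normSq_apply]
        rcases hδ with rfl | rfl
        · simp; ring
        · simp; ring
      have h8 : ‖(a : ℂ) + δ‖ ^ 2 ≤ 1 := by
        have := norm_nonneg ((a : ℂ) + δ)
        nlinarith
      rw [h7] at h8
      have h9 : a ^ 2 ≤ 0 := by linarith
      exact pow_eq_zero_iff two_ne_zero |>.1 (le_antisymm h9 (sq_nonneg _))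
    refine ⟨?_, ?_⟩
    · rw [hT, hwpo, ha0]
      rcases hδ with rfl | rfl
      · left; simp
      · right; simp
    · intro x hx
      exact hR (π x) _ (h1 x hx).1 ⟨x, hx, hA x hx, rfl⟩
  refine ⟨hA, fun y hy => (main y hy).1, ?_⟩
  intro x y hx hy
  rw [norm_inner_symm (π x), norm_inner_symm x]
  exact ((main y hy).2 x hx).symm

end e6d

end PR
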